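import Pool.Agent.H78.HL.Glue
import Pool.Agent.H81.HE.Fin

/-!
# Tall rectangles: no overlapping class, from the `F` type of all overlapping classes
-/

namespace Pool.Agent.H78.HL

open Pool.Agent.H98.Flat
open Pool.Agent.H78.Tie
open Pool.Agent.H78.Tie.TAp
open Pool.Agent.H78.RT
open Pool.Agent.H78.SV

variable {A : TAp} {T : A.Tie} {n U S : ℤ}

/-- no overlapping class, if all overlapping classes are of `F` type and `D < H` or the last
edge -/
theorem no_of2 (h : TL T) (hF : ∀ k U S, OV T k U S → FT T k U ∧ (A.D < A.q * A.h ∨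
      (T.ep = 1 ∧ U + S < 0 ∧ S ≤ A.q * A.w - A.q * A.h)))
    (o : OV T n U S) : False :=
  no_of h hF (fun _ _ _ o f he hV hS hD => Pool.Agent.H81.HE.edgeE4 h o f hD he hV hS)
    (fun _ _ _ o f he hV hS hD => Pool.Agent.H81.HE.edgeE5 h o f hD he hV hS)
    (fun _ _ _ o f he hV hS hD => Pool.Agent.H81.HE.edgeE6 h o f hD he hV hS) o

/-- (HL) for tall rectangles, from `nonF` -/
theorem hTL_of (nonF : ∀ (A : TAp) (T : A.Tie) (n U S : ℤ), TL T → OV T n U S →
      ¬ (FT T n U ∧ (A.D < A.q * A.h ∨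
        (T.ep = 1 ∧ U + S < 0 ∧ S ≤ A.q * A.w - A.q * A.h))) → False)
    (A : TAp) (T : A.Tie) (F : A.Fl) (hs : T.Single) (ht : T.t ≠ 1) (hx0 : T.x ≠ 0)
    (hx1 : |T.x| < A.h) (hd : (A.w : ℤ) ≤ A.md) (hw : (A.w : ℤ) + |T.x| ≤ A.h)
    (i m f s : ℤ) (hO : T.Ov i m f s) : False := by
  have h : TL T := ⟨F, hs, ht, hx0, hx1, hd, hw⟩
  exact no_of2 h (fun k U S o => by_contra fun hc => nonF A T k U S h o hc) (OV.of hO)

end Pool.Agent.H78.HL
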