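import Pool.Agent.H78.HL.Edge
import Pool.Agent.H78.HL.E.G7

/-!
# Tall rectangles: the edge line `ep = -1`, `U < 0`, `V < 0`, `S = W - H`
-/

namespace Pool.Agent.H78.HL

open Pool.Agent.H98.Flat
open Pool.Agent.H78.Tie
open Pool.Agent.H78.Tie.TAp
open Pool.Agent.H78.RT
open Pool.Agent.H78.SV

variable {A : TAp} {T : A.Tie} {n U S : ℤ}

theorem not_par (h : TL T) (o : OV T n U S) (he : T.ep = -1)
    (hS : S = A.q * A.w - A.q * A.h) (hx : T.x < 0) (hD : A.D < A.q * A.h) :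
    th A n + th A T.t ≠ A.D := by
  intro e
  have hq := A.q_pos'
  have hDW := W_le_D h
  obtain ⟨g1, g2, g3⟩ := h.fx
  obtain ⟨o1, o2, o3, o4, o5, o6⟩ := o.b h
  have hX := mul_neg_of_pos_of_neg hq hx
  rw [abs_of_neg hX] at g1 g2 g3
  have q6 := q6 A
  have W2 := W2 A
  have NW := NW A
  have NH := NH A
  have hN := NN_pos A
  have hn : (A.p : ℤ) - n = T.t := by
    have h1 : th A ((A.p : ℤ) - n) = th A T.t := by rw [th_sub, th_p]; linarith
    rcases lt_trichotomy ((A.p : ℤ) - n) T.t with g | g | g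
    · exact absurd h1 (th_lt A g).ne
    · exact g
    · exact absurd h1 (th_lt A g).ne'
  have h3 : IsC A (A.p - n) (A.D - U) (-S) (A.D - th A n) := by
    have := o.cn.1.lin (Rec.P A) (-1)
    rw [show -1 * n + (A.p : ℤ) = A.p - n by ring, show -1 * U + A.D = A.D - U by ring,
      show -1 * S + 0 = -S by ring, show -1 * th A n + A.D = A.D - th A n by ring] at this
    exact ⟨this, by have := o.cn.2.2; omega, by have := o.cn.2.1; omega⟩
  rw [hn] at h3
  obtain ⟨⟨z, hz⟩, ⟨z', hz'⟩⟩ := (Idx.tie T).subs (Idx.ofC h3)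
  rw [he] at hz hz'
  have c1 := ncases hN z
  have c2 := ncases hN z'
  have e1 : A.D - U + A.q * A.w + A.sg = z * NN A := by linear_combination hz
  have e2 : -S + A.q * T.x - A.q * A.w = z' * NN A := by linear_combination hz'
  rcases A.hsg with hg | hg <;> rw [hg] at e1 <;> omega

theorem edgeE7 (h : TL T) (o : OV T n U S) (he : T.ep = -1) (hU : U < 0) (hV : U + S < 0)
    (ht : th A n < th A T.t) (hS : S = A.q * A.w - A.q * A.h) (hx : T.x < 0)
    (hDH : A.D < A.q * A.h) : False := by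
  have e4 := not_par h o he hS hx hDH
  have hq := A.q_pos'
  have hN := NN_pos A
  have hk := A.k0_cases
  have hD := W_le_D h
  obtain ⟨g1, g2, g3⟩ := h.fx
  obtain ⟨o1, o2, o3, o4, o5, o6⟩ := o.b h
  have q6 := q6 A
  have W2 := W2 A
  have NW := NW A
  have NH := NH A
  have In := Idx.ofC o.cn
  have hsg := A.hsg
  have qn := q_dvd_S In
  obtain ⟨s, hs⟩ := id qn
  have hX := mul_neg_of_pos_of_neg hq hx
  rw [abs_of_neg hX] at g1 g2 g3
  have hY : (A.q : ℤ) * (s - A.w - A.h) = S - A.q * A.w - A.q * A.h := by rw [hs]; ring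
  obtain ⟨i, U', S', i0, in', hI, hb⟩ := net_posC h.F (c := U + A.q * A.w + A.sg)
    (v := -(A.q * A.h)) (Y := s - A.w - A.h) (dvd_c o) (j := 0) (j' := n)
    (by rw [hY]; omega) (by rw [hY]; omega)
    ⟨le_refl _, A.p_pos'⟩ ⟨o.cn.2.1.le, o.cn.2.2⟩ o.cn.2.1.ne
    (Or.inl ⟨Or.inr (cn_of (Idx.zero A) (by omega) (by rw [hY]; omega) (by omega)),
      not_cn (Idx.zero A) (Or.inr (Or.inr ⟨by rw [mul_zero]; omega,
        by rw [hY, mul_zero]; omega⟩)),
      not_cn (Idx.zero A) (Or.inl ⟨by rw [mul_zero]; omega, by rw [hY, mul_zero]; omega⟩)⟩)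
    (Or.inl ⟨Or.inr (cn_of In (by omega) (by rw [hY]) (by omega)),
      not_cn In (Or.inr (Or.inr ⟨by rw [mul_zero]; omega, by rw [hY, mul_zero]; omega⟩)),
      not_cn In (Or.inl ⟨by rw [mul_zero]; omega, by rw [hY, mul_zero]; omega⟩)⟩)
  have ck := cls3 i0 hI
  have qS := q_dvd_S hI
  rw [hY] at hb
  have hkt : i ≠ T.t := by
    refine ne_tie hI ?_
    intro z z' e1 e2
    rw [he] at e1 e2
    have e3 : (A.q : ℤ) * (-1 * (T.x - A.w)) = A.q * A.w - A.q * T.x := by ring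
    rw [e3] at e2
    rw [neg_one_mul] at e1
    have c1 := ncases hN z
    have c2 := ncases hN z'
    unfold NegBoxC at hb
    omega
  have d := h.stm hx
  rcases hb with ⟨b1, b2, b3, b4, b5⟩ | ⟨b1, b3, b4, b5⟩
  · have b4' : S' + A.q ≤ S := le_sub_q hq (dvd_sub qn qS) (by omega)
    rcases hsg with hg | hg
    · exact E7mpUR_c d hg he o hU ht hD hDH g1 hV hS e4 ck hkt in' (by omega) b2 (by omega) b4' b5
    · exact E7mmUR_c d hg he o hU ht hD hDH g1 hV hS e4 ck hkt in' (by omega) b2 (by omega) b4' b5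
  · have b4' : S' + A.q ≤ S := le_sub_q hq (dvd_sub qn qS) (by omega)
    rcases hsg with hg | hg
    · exact E7mpLL_c d hg he o hU ht hD hDH g1 hV hS e4 ck hkt in' b1 (by omega) b4' (by omega)
    · exact E7mmLL_c d hg he o hU ht hD hDH g1 hV hS e4 ck hkt in' b1 (by omega) b4' (by omega)

end Pool.Agent.H78.HL
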