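import Pool.Agent.H78.HL.Gap
import Pool.Agent.H78.SV.TriT
import Pool.Agent.H67.NO.Glue

/-!
# Tall rectangles: the last column window

If no third class has its left wall in the columns `(-W, U_n + W]` (`ep = 1`) then the tie is a
multiple of the class which is closest to `0` on the right.
-/

namespace Pool.Agent.H78.HL

open Pool.Agent.H98.Flat
open Pool.Agent.H78.Tie
open Pool.Agent.H78.Tie.TAp
open Pool.Agent.H78.RT
open Pool.Agent.H78.SV

variable {A : TAp} {T : A.Tie}

/-- standing hypotheses -/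
structure TL (T : A.Tie) : Prop where
  F : A.Fl
  hs : T.Single
  ht : T.t ≠ 1
  x0 : T.x ≠ 0
  x1 : |T.x| < A.h
  hd : (A.w : ℤ) ≤ A.md
  hw : (A.w : ℤ) + |T.x| ≤ A.h

/-- a class which overlaps the class `0` -/
structure OV (T : A.Tie) (n U S : ℤ) : Prop where
  cn : IsC A n U S (th A n)
  nt : n ≠ T.t
  U0 : -(A.q * A.w : ℤ) < U
  U1 : U < A.q * A.w
  V0 : -(A.q * A.h : ℤ) < U + S
  V1 : U + S < A.q * A.h

theorem OV.of {i m f s : ℤ} (h : T.Ov i m f s) : OV T i (A.q * m + f) (A.q * s) := by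
  obtain ⟨⟨c1, c2, c3, c4, c5, c6⟩, ht, h1, h2, h3, h4⟩ := h
  have hq := A.q_pos'
  refine ⟨⟨⟨?_, ⟨s, rfl, c6⟩, th_eq A i⟩, c1, c2⟩, ht, ?_, ?_, ?_, ?_⟩
  · exact c5
  · have := mul_le_mul_of_nonneg_left h1 hq.le
    rw [mul_neg] at this; omega
  · have := mul_le_mul_of_nonneg_left (show m + 1 ≤ A.w by omega) hq.le
    rw [mul_add, mul_one] at this; omega
  · have := mul_le_mul_of_nonneg_left h3 hq.le
    rw [mul_neg, mul_add] at this; omega
  · have := mul_le_mul_of_nonneg_left (show m + s + 1 ≤ A.h by omega) hq.le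
    rw [mul_add, mul_one, mul_add] at this; omega

/-- `F` type: the wall of `n` in the column strip of `0` is free -/
structure FT (T : A.Tie) (n U : ℤ) : Prop where
  u : T.ep * U < 0
  f : A.D < th A n + th A T.t

/-- every class except `n` and `t` is outside the column window -/
def Win (T : A.Tie) (n U : ℤ) : Prop :=
  ∀ K U' S', IsC A K U' S' (th A K) → K ≠ n → K ≠ T.t → -(A.q * A.w : ℤ) < T.ep * U' →
    T.ep * U' ≤ T.ep * U + A.q * A.w → False

/-- the data of case R -/
structure CR (T : A.Tie) (n U S g m d Sg : ℤ) : Prop where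
  cg : IsC A g (T.ep * d) Sg (th A g)
  m3 : 3 ≤ m
  tg : T.t = m * g
  dm : A.q * A.w + A.sg = m * d
  d3 : 3 < d
  dq : d < A.q
  ud : T.ep * U + A.q * A.w < d
  ng : A.D < th A n + th A g
  mi : ∀ K U' S', IsC A K U' S' (th A K) → 0 < T.ep * U' → d ≤ T.ep * U'
  det : th A n * d - th A g * (T.ep * U) = A.q * A.D

theorem D_lt (A : TAp) : 2 * A.D < NN A + A.q := by
  have h1 := A.hmd2
  have h2 := A.hfd2
  have hq := A.q_pos'
  have hh := A.hmd
  have : A.q * (2 * A.md + 1) ≤ (A.q : ℤ) * A.p := mul_le_mul_of_nonneg_left (by omega) hq.le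
  unfold TAp.D NN
  rw [mul_comm (A.p : ℤ)]
  rw [mul_add, mul_one] at this
  linarith

theorem W_le_D {T : A.Tie} (h : TL T) : A.q * (A.w : ℤ) < A.D := by
  have h1 := A.hfd
  have := mul_le_mul_of_nonneg_left h.hd A.q_pos'.le
  unfold TAp.D; omega

/-- case R -/
theorem caseR (h : TL T) {n U S : ℤ} (o : OV T n U S) (f : FT T n U) (w : Win T n U) :
    ∃ g m d Sg, CR T n U S g m d Sg := by
  have hq := A.q_pos'
  have hp := A.p_pos'
  have hpq : (A.p : ℤ) < A.q := by exact_mod_cast A.pq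
  have hw2 : (2 : ℤ) ≤ A.w := by exact_mod_cast A.hw
  have hwp : 2 * (A.w : ℤ) + 1 ≤ A.p := by have := A.w2; omega
  have ee : T.ep * T.ep = 1 := by rcases T.hep with h | h <;> rw [h] <;> norm_num
  have hN : NN A = A.p * A.q := rfl
  have W2 : 2 * (A.q : ℤ) ≤ A.q * A.w := by
    have := mul_le_mul_of_nonneg_left hw2 hq.le; linarith
  have WN : 2 * (A.q * A.w : ℤ) + A.q ≤ A.p * A.q := by
    have := mul_le_mul_of_nonneg_left hwp hq.le; linarith
  have gen : ∀ i : ℤ, i ≠ 0 → |i| ≤ A.p → ¬ (A.q : ℤ) ∣ T.ep * A.a * i := by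
    intro i hi hi' hd
    refine A.gen i hi hi' ?_
    have := hd.mul_left T.ep
    rwa [show T.ep * (T.ep * A.a * i) = T.ep * T.ep * (A.a * i) by ring, ee, one_mul] at this
  have mulep : ∀ {i u : ℤ}, (A.p : ℤ) * A.q ∣ T.ep * A.a * i - u →
      NN A ∣ A.a * i - T.ep * u := by
    intro i u hd
    have := hd.mul_left T.ep
    rwa [show T.ep * (T.ep * A.a * i - u) = T.ep * T.ep * (A.a * i) - T.ep * u by ring, ee,
      one_mul] at this
  have hnt : (A.p : ℤ) < n + T.t := by
    rw [← th_lt_iff, th_add, th_p]; exact f.f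
  obtain ⟨g, m, d, g0, g1, m3, tm, dm, gd, ud, d3, dq, ng, mi⟩ :=
    chain (p := A.p) (q := A.q) (a := T.ep * A.a) (W := A.q * A.w) (R := A.q * A.w + A.sg)
      (sg := A.sg) (t := T.t) (n := n) (un := T.ep * U) (by linarith) hpq gen
      (A.hpa.mul_left _) W2 WN A.hsg rfl ⟨T.t0, T.tp⟩ o.cn.2 (by
        have := T.tie.mul_left T.ep
        rwa [show T.ep * (A.a * T.t - T.ep * (A.q * A.w + A.sg)) =
          T.ep * A.a * T.t - T.ep * T.ep * (A.q * A.w + A.sg) by ring, ee, one_mul] at this) (by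
        have := o.cn.1.1.mul_left T.ep
        rwa [show T.ep * (A.a * n - U) = T.ep * A.a * n - T.ep * U by ring] at this)
      (by
        rcases T.hep with he | he <;> rw [he]
        · have := o.U0; linarith
        · have := o.U1; linarith)
      f.u hnt.le (by
        intro K u h0 h1 h2 h3 h4 h5 h6
        refine w K (T.ep * u) (A.q * (A.e * K)) ⟨⟨mulep h4, ⟨A.e * K, rfl, by simp⟩, th_eq A K⟩,
          h0, h1⟩ h2 h3 ?_ ?_
        · rw [← mul_assoc, ee, one_mul]; exact h5
        · rw [← mul_assoc, ee, one_mul]; exact h6)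
  have Dq := W_le_D h
  have DN := D_lt A
  have hgr : Rec A g (T.ep * d) (A.q * (A.e * g)) (th A g) :=
    ⟨mulep gd, ⟨A.e * g, rfl, by simp⟩, th_eq A g⟩
  have ng' : (A.p : ℤ) < n + g := by
    rcases lt_or_eq_of_le ng with h1 | h1
    · exact h1
    exfalso
    have h2 := dvd_add o.cn.1.1 hgr.1
    rw [show A.a * n - U + (A.a * g - T.ep * d) = A.a * (n + g) - (U + T.ep * d) by ring,
      ← h1] at h2
    have h3 := dvd_sub A.hd h2
    rw [show A.a * A.p - (A.q * A.md + A.fd) - (A.a * A.p - (U + T.ep * d)) =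
      U + T.ep * d - A.D by unfold TAp.D; ring] at h3
    have hu := f.u
    have h4 := Int.eq_zero_of_abs_lt_dvd h3 (by
      rw [abs_lt]
      have := o.U0
      have := o.U1
      rcases T.hep with he | he <;> rw [he] at hu ud ⊢ <;> constructor <;> linarith)
    have := o.U0
    have := o.U1
    rcases T.hep with he | he <;> rw [he] at hu h4 ud <;> linarith
  -- the determinant
  have det : n * d - g * (T.ep * U) = NN A := by
    have h1 : NN A ∣ n * d - g * (T.ep * U) := by
      have e1 := (o.cn.1.1.mul_left (T.ep * g))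
      have e2 := (hgr.1.mul_left (T.ep * n))
      have := dvd_sub e1 e2
      rwa [show T.ep * g * (A.a * n - U) - T.ep * n * (A.a * g - T.ep * d) =
        T.ep * T.ep * (n * d) - g * (T.ep * U) by ring, ee, one_mul] at this
    obtain ⟨z, hz⟩ := h1
    have hU0 : -(A.q * A.w : ℤ) < T.ep * U := by
      rcases T.hep with he | he <;> rw [he]
      · have := o.U0; linarith
      · have := o.U1; linarith
    have n0 := o.cn.2.1
    have n1 := o.cn.2.2
    have u0 := f.u
    have a1 : 0 < n * d := mul_pos n0 (by linarith)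
    have a2 : 0 < g * (-(T.ep * U)) := mul_pos g0 (by linarith)
    have a3 : n * d < A.p * A.q := by
      calc n * d < A.p * d := mul_lt_mul_of_pos_right n1 (by linarith)
        _ ≤ A.p * A.q := mul_le_mul_of_nonneg_left dq.le hp.le
    have a4 : g * (-(T.ep * U)) ≤ g * (m * d) := by
      apply mul_le_mul_of_nonneg_left _ g0.le
      rw [← dm]
      have h5 : (A.p : ℤ) ∣ U + (A.q * A.w + A.sg) * T.ep := by
        refine dvd_add ?_ ((A.hpw).mul_right _)
        have h6 : (A.p : ℤ) ∣ A.a * n - U := (Dvd.intro _ rfl).trans o.cn.1.1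
        have := dvd_sub (A.hpa.mul_right n) h6
        rwa [show A.a * n - (A.a * n - U) = U by ring] at this
      rcases A.hsg with hg | hg
      · rw [hg]; linarith
      · by_contra hc
        push Not at hc
        rw [hg] at hc h5
        have h7 : T.ep * U = -(A.q * A.w) + 1 := by linarith
        have h8 : T.ep * (U + (A.q * A.w + -1) * T.ep) = 0 := by
          rw [mul_add, h7, show T.ep * ((A.q * A.w + -1) * T.ep) =
            T.ep * T.ep * (A.q * A.w + -1) by ring, ee]
          ring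
        linarith
    have a5 : g * (m * d) < A.p * A.q := by
      rw [show g * (m * d) = m * g * d by ring, ← tm]
      calc T.t * d < A.p * d := mul_lt_mul_of_pos_right T.tp (by linarith)
        _ ≤ A.p * A.q := mul_le_mul_of_nonneg_left dq.le hp.le
    have hNp := NN_pos A
    have b1 : 0 < NN A * z := by rw [← hz]; linarith
    have b2 : NN A * z < 2 * NN A := by rw [← hz, hN]; linarith
    have c1 : 0 < z := (mul_pos_iff_of_pos_left hNp).1 b1
    have c2 : z < 2 := by
      by_contra hc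
      push Not at hc
      have := mul_le_mul_of_nonneg_left hc hNp.le
      linarith
    have : z = 1 := by omega
    rw [hz, this, mul_one]
  refine ⟨g, m, d, A.q * (A.e * g), ⟨hgr, g0, g1⟩, m3, tm, dm, d3, dq, ud, ?_, ?_, ?_⟩
  · rw [← th_add, ← th_p, th_lt_iff]; exact ng'
  · intro K U' S' hc h0
    refine mi K (T.ep * U') hc.2.1 hc.2.2 ?_ h0
    have := hc.1.1.mul_left T.ep
    rwa [show T.ep * (A.a * K - U') = T.ep * A.a * K - T.ep * U' by ring] at this
  · apply mul_left_cancel₀ hp.ne'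
    have e1 := th_eq A n
    have e2 := th_eq A g
    rw [hN] at det
    linear_combination -(d * e1) + T.ep * U * e2 + A.D * det

/-- all overlapping classes are on the side opposite to the tie -/
def Opp (T : A.Tie) : Prop := ∀ k U S, OV T k U S → T.ep * U < 0

/-- the classes `k g`, `0 < k < m`, do not overlap the class `0` -/
theorem CR.sep {n U S g m d Sg : ℤ} (c : CR T n U S g m d Sg) (hP : Opp T) {k v : ℤ}
    (h1 : 1 ≤ k) (h2 : k < m) (hv : NN A ∣ k * (T.ep * d + Sg) - v) :
    v ≤ -(A.q * A.h : ℤ) ∨ A.q * A.h ≤ v := by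
  by_contra hc
  push Not at hc
  have hq := A.q_pos'
  have ee : T.ep * T.ep = 1 := by rcases T.hep with h | h <;> rw [h] <;> norm_num
  obtain ⟨z, hz⟩ := hv
  obtain ⟨⟨c1, ⟨s, hs, c2⟩, c3⟩, c4, c5⟩ := c.cg
  have hkg : k * g < T.t := by rw [c.tg]; exact mul_lt_mul_of_pos_right h2 c4
  have hk0 : 0 < k * g := mul_pos (by linarith) c4
  have dpos : 0 < d := by have := c.d3; linarith
  have hkd : k * d ≤ A.q * A.w + A.sg - d := by
    have := mul_le_mul_of_nonneg_right (show k ≤ m - 1 by omega) dpos.le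
    rw [c.dm]; linarith
  have hkd0 : 0 < k * d := mul_pos (by linarith) dpos
  have hsg : -1 ≤ A.sg ∧ A.sg ≤ 1 := by rcases A.hsg with h | h <;> rw [h] <;> norm_num
  have d3 := c.d3
  have hI : IsC A (k * g) (T.ep * (k * d)) (v - T.ep * (k * d)) (th A (k * g)) := by
    refine ⟨⟨?_, ⟨k * s - A.p * z, ?_, ?_⟩, th_eq A _⟩, hk0, by linarith [T.tp]⟩
    · have := c1.mul_left k
      rwa [show k * (A.a * g - T.ep * d) = A.a * (k * g) - T.ep * (k * d) by ring] at this
    · rw [hs] at hz
      unfold NN at hz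
      linear_combination -hz
    · have := dvd_add (c2.mul_left k) (Dvd.intro z rfl)
      rwa [show k * (A.e * g - s) + A.p * z = A.e * (k * g) - (k * s - A.p * z) by ring] at this
  have := hP _ _ _ ⟨hI, by linarith, ?_, ?_, by linarith, by linarith⟩
  · rw [← mul_assoc, ee, one_mul] at this
    linarith
  · rcases T.hep with h | h <;> rw [h] <;> linarith
  · rcases T.hep with h | h <;> rw [h] <;> linarith

/-- the tie: `m V_g` is `ep (X + sg)` -/
theorem CR.tie {n U S g m d Sg : ℤ} (c : CR T n U S g m d Sg) :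
    NN A ∣ m * (T.ep * d + Sg) - T.ep * (A.q * T.x + A.sg) := by
  obtain ⟨⟨c1, ⟨s, hs, c2⟩, c3⟩, c4, c5⟩ := c.cg
  have h1 := c2.mul_left m
  have h2 := T.row
  rw [c.tg] at h2
  obtain ⟨z, hz⟩ := dvd_sub h2 h1
  refine ⟨z, ?_⟩
  rw [hs]
  unfold NN
  linear_combination A.q * hz - T.ep * c.dm

theorem red (A : TAp) (x : ℤ) : ∃ v, NN A ∣ x - v ∧ 0 ≤ v ∧ v < NN A := by
  have hN := NN_pos A
  refine ⟨x % NN A, ⟨x / NN A, ?_⟩, Int.emod_nonneg _ hN.ne', Int.emod_lt_of_pos _ hN⟩
  have := Int.emod_add_mul_ediv x (NN A)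
  linear_combination -this

/-- a lift of `V_g` in `[H, N - H]`, and the size of `N` -/
theorem CR.size {n U S g m d Sg : ℤ} (h : TL T) (c : CR T n U S g m d Sg) (hP : Opp T) :
    (∃ Sg', IsC A g (T.ep * d) Sg' (th A g) ∧ A.q * A.h ≤ T.ep * d + Sg' ∧
      T.ep * d + Sg' ≤ NN A - A.q * A.h) ∧
    3 * (A.q * A.h : ℤ) + |A.q * T.x| ≤ NN A ∧ (4 ≤ m → 4 * (A.q * A.h : ℤ) ≤ NN A) := by
  have hq := A.q_pos'
  have hN := NN_pos A
  obtain ⟨v, hv, v0, v1⟩ := red A (T.ep * d + Sg)
  have m3 := c.m3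
  have hh : 0 < (A.q * A.h : ℤ) := by
    have : (2 : ℤ) ≤ A.h := by exact_mod_cast A.hh
    exact mul_pos hq (by linarith)
  have H2 : 2 * (A.q * A.h : ℤ) < NN A := by
    have : 2 * (A.h : ℤ) < A.p := by exact_mod_cast A.h2
    have := mul_lt_mul_of_pos_left this hq
    unfold NN; linarith
  have s1 := c.sep hP (k := 1) le_rfl (by linarith) (v := v) (by rwa [one_mul])
  have s1' := c.sep hP (k := 1) le_rfl (by linarith) (v := v - NN A) (by
    rw [one_mul]
    have := dvd_add hv (dvd_refl (NN A))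
    rwa [show T.ep * d + Sg - v + NN A = T.ep * d + Sg - (v - NN A) by ring] at this)
  have a1 : A.q * A.h ≤ v := by rcases s1 with h | h <;> linarith
  have a2 : v ≤ NN A - A.q * A.h := by rcases s1' with h | h <;> linarith
  have mv : ∀ k z : ℤ, NN A ∣ k * (T.ep * d + Sg) - (k * v - z * NN A) := by
    intro k z
    have := dvd_add (hv.mul_left k) (Dvd.intro_left z rfl : NN A ∣ z * NN A)
    rwa [show k * (T.ep * d + Sg - v) + z * NN A =
      k * (T.ep * d + Sg) - (k * v - z * NN A) by ring] at this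
  have s2 : ∀ z, 2 * v - z * NN A ≤ -(A.q * A.h : ℤ) ∨ A.q * A.h ≤ 2 * v - z * NN A :=
    fun z => c.sep hP (by norm_num) (by linarith) (mv 2 z)
  have t0 := c.tie
  obtain ⟨zz, hzz⟩ := dvd_sub (mv m 0) t0
  rw [zero_mul, sub_zero] at hzz
  -- `m v = ep (X + sg) + z N`
  have hmv : m * v = T.ep * (A.q * T.x + A.sg) - zz * NN A := by linear_combination -hzz
  refine ⟨⟨v - T.ep * d, ?_, by linarith, by linarith⟩, ?_, ?_⟩
  · obtain ⟨⟨c1, ⟨s, hs, c2⟩, c3⟩, c4, c5⟩ := c.cg
    obtain ⟨z, hz⟩ := hv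
    refine ⟨⟨c1, ⟨s - A.p * z, ?_, ?_⟩, c3⟩, c4, c5⟩
    · rw [hs] at hz
      unfold NN at hz
      linear_combination -hz
    · have := dvd_add c2 (Dvd.intro z rfl)
      rwa [show A.e * g - s + A.p * z = A.e * g - (s - A.p * z) by ring] at this
  · -- the classes `g`, `2 g`, `(m - 1) g`, `(m - 2) g`
    have r1 : ∀ z, -v + T.ep * (A.q * T.x + A.sg) - z * NN A ≤ -(A.q * A.h : ℤ) ∨
        A.q * A.h ≤ -v + T.ep * (A.q * T.x + A.sg) - z * NN A := by
      intro z
      refine c.sep hP (k := m - 1) (by linarith) (by linarith) ?_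
      have := dvd_sub t0 (mv 1 0)
      have := dvd_add this (Dvd.intro_left z rfl : NN A ∣ z * NN A)
      rwa [show m * (T.ep * d + Sg) - T.ep * (A.q * T.x + A.sg) -
        (1 * (T.ep * d + Sg) - (1 * v - 0 * NN A)) + z * NN A = (m - 1) * (T.ep * d + Sg) -
        (-v + T.ep * (A.q * T.x + A.sg) - z * NN A) by ring] at this
    have r2 : ∀ z, -(2 * v) + T.ep * (A.q * T.x + A.sg) - z * NN A ≤ -(A.q * A.h : ℤ) ∨
        A.q * A.h ≤ -(2 * v) + T.ep * (A.q * T.x + A.sg) - z * NN A := by
      intro z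
      refine c.sep hP (k := m - 2) (by linarith) (by linarith) ?_
      have := dvd_sub t0 (mv 2 0)
      have := dvd_add this (Dvd.intro_left z rfl : NN A ∣ z * NN A)
      rwa [show m * (T.ep * d + Sg) - T.ep * (A.q * T.x + A.sg) -
        (2 * (T.ep * d + Sg) - (2 * v - 0 * NN A)) + z * NN A = (m - 2) * (T.ep * d + Sg) -
        (-(2 * v) + T.ep * (A.q * T.x + A.sg) - z * NN A) by ring] at this
    have hX := h.x1
    have hX0 := h.x0
    have key : 3 * (A.q * A.h : ℤ) + |A.q * T.x| ≤ NN A + 1 := by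
      have b0 := s2 0
      have b1 := s2 1
      have b2 := s2 2
      have c0 := r1 0
      have c1 := r1 1
      have c2 := r1 (-1)
      have c3 := r1 (-2)
      have d0 := r2 0
      have d1 := r2 1
      have d2 := r2 (-1)
      have d3 := r2 (-2)
      have d4 := r2 (-3)
      have hXH : |A.q * T.x| + A.q ≤ A.q * A.h := by
        rw [abs_mul, abs_of_pos hq]
        have := mul_le_mul_of_nonneg_left (show |T.x| + 1 ≤ (A.h : ℤ) by omega) hq.le
        linarith
      have hq2 : (2 : ℤ) ≤ A.q := by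
        have := A.pq; have := A.h2; have := A.hh; omega
      generalize (A.q * A.h : ℤ) = HH at *
      generalize NN A = N at *
      generalize (A.q * T.x : ℤ) = X at *
      rcases T.hep with he | he <;> rcases A.hsg with hg | hg <;>
        rw [he, hg] at c0 c1 c2 c3 d0 d1 d2 d3 d4 <;>
        rcases abs_cases X with ⟨e1, e2⟩ | ⟨e1, e2⟩ <;> rw [e1] at hXH ⊢ <;> omega
    have h5 : (A.q : ℤ) * (3 * A.h + |T.x|) ≤ A.q * A.p + 1 := by
      have : |A.q * T.x| = A.q * |T.x| := by rw [abs_mul, abs_of_pos hq]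
      rw [this] at key
      unfold NN at key
      linarith
    have h6 : (3 * A.h + |T.x| : ℤ) ≤ A.p := by
      by_contra hc
      push Not at hc
      have := mul_le_mul_of_nonneg_left (show (A.p : ℤ) + 1 ≤ 3 * A.h + |T.x| by omega) hq.le
      have : (2 : ℤ) ≤ A.q := by
        have := A.pq; have := A.h2; have := A.hh; omega
      linarith
    have : |A.q * T.x| = A.q * |T.x| := by rw [abs_mul, abs_of_pos hq]
    rw [this]
    have := mul_le_mul_of_nonneg_left h6 hq.le
    unfold NN; linarith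
  · intro m4
    have s3 : ∀ z, 3 * v - z * NN A ≤ -(A.q * A.h : ℤ) ∨ A.q * A.h ≤ 3 * v - z * NN A :=
      fun z => c.sep hP (by norm_num) (by linarith) (mv 3 z)
    have b0 := s2 0
    have b1 := s2 1
    have b2 := s2 2
    have c0 := s3 0
    have c1 := s3 1
    have c2 := s3 2
    have c3 := s3 3
    have : 0 < NN A := hN
    generalize (A.q * A.h : ℤ) = HH at *
    generalize NN A = N at *
    omega

end Pool.Agent.H78.HL
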