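import Pool.Agent.H78.HL.CaseR
import Pool.Agent.H78.SV.Net
import Pool.Agent.H78.SV.Oc
import Pool.Agent.H78.SV.Dat

/-!
# Tall rectangles: edge cells, base
-/

namespace Pool.Agent.H78.HL

open Pool.Agent.H98.Flat
open Pool.Agent.H78.Tie
open Pool.Agent.H78.Tie.TAp
open Pool.Agent.H78.RT
open Pool.Agent.H78.SV
open Pool.Agent.H81.AP (LF dot dot_nil dot_nil' dot_cons AllNn AllNe)

variable {A : TAp} {T : A.Tie}

theorem TL.stp (h : TL T) (hx : 0 < T.x) : ST A T 1 := by
  have := h.x1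
  rw [abs_of_pos hx] at this
  exact ⟨h.F, h.hs, h.ht, by omega, by omega⟩

theorem TL.stm (h : TL T) (hx : T.x < 0) : ST A T (-1) := by
  have := h.x1
  rw [abs_of_neg hx] at this
  exact ⟨h.F, h.hs, h.ht, by omega, by omega⟩

/-- an overlapping class as `T.Ov` -/
theorem OV.ov {n U S : ℤ} (o : OV T n U S) : ∃ m f s, T.Ov n m f s ∧ U = A.q * m + f ∧
    S = A.q * s := by
  obtain ⟨m, f, s, c, hU, hS, f0, f1⟩ := o.cn.cls
  have hq := A.q_pos'
  have h1 := o.U0
  have h2 := o.U1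
  have h3 := o.V0
  have h4 := o.V1
  refine ⟨m, f, s, ⟨c, o.nt, ?_, ?_, ?_, ?_⟩, hU, hS⟩
  · by_contra hc
    have := mul_le_mul_of_nonneg_left (show m ≤ -(A.w : ℤ) - 1 by omega) hq.le
    rw [mul_sub, mul_neg] at this; omega
  · by_contra hc
    have := mul_le_mul_of_nonneg_left (show (A.w : ℤ) ≤ m by omega) hq.le
    omega
  · by_contra hc
    have := mul_le_mul_of_nonneg_left (show m + s ≤ -(A.h : ℤ) - 1 by omega) hq.le
    rw [mul_sub, mul_neg, mul_add] at this; omega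
  · by_contra hc
    have := mul_le_mul_of_nonneg_left (show (A.h : ℤ) ≤ m + s by omega) hq.le
    rw [mul_add] at this; omega

theorem OV.oc {sx : ℤ} (d : ST A T sx) {n U S : ℤ} (o : OV T n U S) :
    OC A T n U S (th A n) := by
  obtain ⟨m, f, s, ho, rfl, rfl⟩ := o.ov
  exact d.oc ho

/-- facts for `n` of `F` type -/
theorem FT.g {sx : ℤ} (d : ST A T sx) {n U : ℤ} (f : FT T n U) :
    A.D + 2 ≤ th A n + th A T.t := by
  have h1 := f.f
  rw [← th_add, ← th_p, th_lt_iff] at h1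
  have := d.gap h1
  rwa [th_p, th_add] at this

/-- records of two generic classes -/
def JG : List LR := [⟨[0, 0, 0, 0, 0, 0, 0, 0, 0, 0, 1], [0, 0, 0, 0, 0, 0, 0, 0, 0, 1],
  [0, 0, 0, 0, 0, 0, 0, 0, 1]⟩, ⟨[0, 0, 0, 0, 0, 0, 0, 0, 0, 0, 0, 0, 0, 1],
  [0, 0, 0, 0, 0, 0, 0, 0, 0, 0, 0, 0, 1], [0, 0, 0, 0, 0, 0, 0, 0, 0, 0, 0, 1]⟩]

/-- residues modulo `q` of the environment -/
def resG (es D a b : ℤ) : List ℤ := [1, 0, 0, 0, D, 0, es, 0, a, 0, a, b, 0, b]

theorem dvdG {F : LF} {q : ℤ} {v w : List ℤ} (h : List.Forall₂ (fun a b => q ∣ a - b) v w) :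
    q ∣ dot F v - dot F w := by
  induction h generalizing F with
  | nil => simp [dot_nil']
  | cons h1 _ ih =>
    cases F with
    | nil => simp [dot_nil]
    | cons f F =>
      rw [dot_cons, dot_cons]
      have h2 := dvd_add (h1.mul_left f) (ih (F := F))
      rw [mul_sub] at h2
      rw [add_sub_add_comm]
      exact h2

theorem goG {sx : ℤ} (d : ST A T sx) {sp ep : Bool} (hsg : A.sg = sgv sp)
    (hep : T.ep = sgv ep) {n k U S V R : ℤ} (cn : IsC A n U S (th A n))
    (ck : IsC A k V R (th A k)) (hn : n ≠ T.t) (hk : k ≠ T.t) (hnk : k ≠ n) {g ne la : List LF}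
    (hg : AllNn (env A T [th A n, S, U, th A k, R, V]) g)
    (hne : th A T.t ≠ th A k → th A n ≠ th A k → th A n ≠ th A T.t →
      AllNe (env A T [th A n, S, U, th A k, R, V]) ne)
    (hla : ∀ F ∈ la, dot F (resG (sgv ep * sgv sp) A.D (th A n) (th A k)) = 0)
    {t : Pool.Agent.H78.RT.T} (h : (mkS sp ep sx JG g ne la).chk t = true) : False := by
  have inj : ∀ {i j : ℤ}, i ≠ j → th A i ≠ th A j := by
    intro i j hij
    rcases lt_or_gt_of_ne hij with h | h
    · exact (th_lt A h).ne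
    · exact (th_lt A h).ne'
  refine d.run hsg hep (J := JG) (g := g) (ne := ne) (la := la)
    (r := [th A n, S, U, th A k, R, V]) ?_ hg
    (hne (inj (Ne.symm hk)) (inj (Ne.symm hnk)) (inj hn)) ?_ h
  · refine ⟨⟨n, ?_⟩, ⟨k, ?_⟩, trivial⟩
    · unfold LR.Cl env
      simp only [dot_cons, dot_nil]
      convert cn using 1 <;> ring
    · unfold LR.Cl env
      simp only [dot_cons, dot_nil]
      convert ck using 1 <;> ring
  · intro F hF
    have h1 := d.q_th
    rw [hsg, hep] at h1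
    obtain ⟨s, hs, -⟩ := cn.1.2.1
    obtain ⟨s', hs', -⟩ := ck.1.2.1
    have h2 : List.Forall₂ (fun a b => (A.q : ℤ) ∣ a - b)
        (1 :: env A T [th A n, S, U, th A k, R, V])
        (resG (sgv ep * sgv sp) A.D (th A n) (th A k)) := by
      unfold env resG
      refine .cons (by simp) (.cons (by rw [sub_zero]; exact dvd_mul_left _ _)
        (.cons (by simp) (.cons (by simp) (.cons (by simp) (.cons (by simp) (.cons h1
        (.cons (by simp) (.cons (by simp) (.cons ⟨s, by rw [hs]; ring⟩ (.cons cn.1.mod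
        (.cons (by simp) (.cons ⟨s', by rw [hs']; ring⟩ (.cons ck.1.mod .nil)))))))))))))
    have := dvdG (F := F) h2
    rwa [hla F hF, sub_zero] at this

theorem gnil {v : List ℤ} : ∀ F ∈ ([] : List LF), dot F v = 0 := by
  intro F hF; cases hF

theorem gcons {v : List ℤ} {F : LF} {la : List LF} (h : dot F v = 0)
    (h' : ∀ F ∈ la, dot F v = 0) : ∀ G ∈ F :: la, dot G v = 0 := by
  intro G hG
  rcases List.mem_cons.1 hG with rfl | hG
  · exact h
  · exact h' G hG

/-- the tie is not in a box -/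
theorem ne_tie {k U' S' : ℤ} (hI : Idx A k U' S')
    (hb : ∀ z z' : ℤ, U' = T.ep * (A.q * A.w + A.sg) + z * NN A →
      S' = A.q * (T.ep * (T.x - A.w)) + z' * NN A → False) : k ≠ T.t := by
  rintro rfl
  obtain ⟨⟨z, hz⟩, ⟨z', hz'⟩⟩ := (Idx.tie T).subs hI
  exact hb z z' (by linear_combination hz) (by linear_combination hz')

end Pool.Agent.H78.HL
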