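import Pool.Agent.H78.HL.E.G1
import Pool.Agent.H78.HL.E.G2

/-!
# Tall rectangles: edge cells with `ep = 1`, `U < 0`, `V < 0`
-/

namespace Pool.Agent.H78.HL

open Pool.Agent.H98.Flat
open Pool.Agent.H78.Tie
open Pool.Agent.H78.Tie.TAp
open Pool.Agent.H78.RT
open Pool.Agent.H78.SV

variable {A : TAp} {T : A.Tie} {n U S : ℤ}

/-- from a third row to a third class -/
theorem cls3 {k U' S' : ℤ} (h0 : k ≠ 0) (hI : Idx A k U' S') : IsC A k U' S' (th A k) :=
  hI.isC h0 _ (th_eq A k)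

theorem dvd_c (o : OV T n U S) : (A.p : ℤ) ∣ U + A.q * A.w + A.sg := by
  have h1 := (Idx.ofC o.cn).dvd
  have := dvd_add h1 A.hpw
  rwa [← add_assoc] at this

theorem ncases {N : ℤ} (hN : 0 < N) (z : ℤ) :
    z * N = 0 ∨ N ≤ z * N ∨ z * N ≤ -N := by
  rcases lt_trichotomy z 0 with h | h | h
  · right; right
    have := mul_le_mul_of_nonneg_right (show z ≤ -1 by omega) hN.le
    linarith
  · left; rw [h, zero_mul]
  · right; left
    have := mul_le_mul_of_nonneg_right (show 1 ≤ z by omega) hN.le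
    linarith

/-- facts on `x` -/
theorem TL.fx (h : TL T) : (A.q * A.w : ℤ) + |A.q * T.x| ≤ A.q * A.h ∧
    A.q ≤ |(A.q * T.x : ℤ)| ∧ |(A.q * T.x : ℤ)| + A.q ≤ A.q * A.h := by
  have hq := A.q_pos'
  have e : |(A.q * T.x : ℤ)| = A.q * |T.x| := by rw [abs_mul, abs_of_pos hq]
  rw [e]
  refine ⟨?_, ?_, ?_⟩
  · have := mul_le_mul_of_nonneg_left h.hw hq.le
    rwa [mul_add] at this
  · have h1 := abs_pos.2 h.x0
    have := mul_le_mul_of_nonneg_left (show (1 : ℤ) ≤ |T.x| by omega) hq.le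
    rwa [mul_one] at this
  · have := mul_le_mul_of_nonneg_left (show |T.x| + 1 ≤ A.h by have := h.x1; omega) hq.le
    rwa [mul_add, mul_one] at this

theorem OV.b (h : TL T) (o : OV T n U S) : -(A.q * A.w : ℤ) + 2 ≤ U ∧ U + 2 ≤ A.q * A.w ∧
    (U + 2 ≤ 0 ∨ 2 ≤ U) ∧ -(A.q * A.h : ℤ) + 2 ≤ U + S ∧ U + S + 2 ≤ A.q * A.h ∧
    (U + S + 2 ≤ 0 ∨ 2 ≤ U + S) := by
  rcases lt_or_gt_of_ne h.x0 with hx | hx
  · obtain ⟨c0, c1, c2, c3, c4, c5, c6, c7, c8, c9, c10, c11, c12, c13, c14⟩ := o.oc (h.stm hx)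
    exact ⟨c9, c10, c11, c12, c13, c14⟩
  · obtain ⟨c0, c1, c2, c3, c4, c5, c6, c7, c8, c9, c10, c11, c12, c13, c14⟩ := o.oc (h.stp hx)
    exact ⟨c9, c10, c11, c12, c13, c14⟩

theorem q_dvd_S {k U' S' : ℤ} (hI : Idx A k U' S') : (A.q : ℤ) ∣ S' := by
  obtain ⟨-, -, -, s, hs, -⟩ := hI
  exact ⟨s, hs⟩

theorem le_sub_q {q x y : ℤ} (hq : 0 < q) (h : q ∣ y - x) (h1 : x < y) : x + q ≤ y := by
  have := Int.le_of_dvd (by linarith) h
  linarith

theorem edgeE1 (h : TL T) (o : OV T n U S) (f : FT T n U) (he : T.ep = 1) (hV : U + S < 0)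
    (hS : 0 ≤ S) : False := by
  have hq := A.q_pos'
  have hN := NN_pos A
  have hk := A.k0_cases
  have hU := f.u
  rw [he, one_mul] at hU
  have hD := W_le_D h
  obtain ⟨g1, g2, g3⟩ := h.fx
  obtain ⟨o1, o2, o3, o4, o5, o6⟩ := o.b h
  have q6 := q6 A
  have W2 := W2 A
  have NW := NW A
  have NH := NH A
  have In := Idx.ofC o.cn
  have hY : (A.q : ℤ) * -(A.w : ℤ) = -(A.q * A.w) := by ring
  obtain ⟨i, U', S', i0, in', hI, hb⟩ := net_negC h.F (c := U + A.q * A.w + A.sg) (v := 0)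
    (Y := -(A.w : ℤ)) (dvd_c o) (j := 0) (j' := n)
    (by rw [hY]; omega) (by rw [hY]; omega)
    ⟨le_refl _, A.p_pos'⟩ ⟨o.cn.2.1.le, o.cn.2.2⟩ o.cn.2.1.ne
    (Or.inl ⟨Or.inl (cn_of (Idx.zero A) (by omega) (by rw [hY, mul_zero]; omega)
        (by rw [mul_zero]; omega)),
      not_cn (Idx.zero A) (Or.inl ⟨by rw [mul_zero]; omega, by rw [hY, mul_zero]; omega⟩),
      not_cn (Idx.zero A) (Or.inr (Or.inl ⟨by rw [hY]; omega, by omega⟩))⟩)
    (Or.inl ⟨Or.inl (cn_of In (by omega) (by rw [hY, mul_zero]; omega)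
        (by rw [mul_zero]; omega)),
      not_cn In (Or.inl ⟨by rw [mul_zero]; omega, by rw [hY, mul_zero]; omega⟩),
      not_cn In (Or.inr (Or.inl ⟨by rw [hY]; omega, by omega⟩))⟩)
  have ck := cls3 i0 hI
  have qS := q_dvd_S hI
  rw [hY] at hb
  have hkt : i ≠ T.t := by
    refine ne_tie hI ?_
    intro z z' e1 e2
    rw [he] at e1 e2
    have e3 : (A.q : ℤ) * (1 * (T.x - A.w)) = A.q * T.x - A.q * A.w := by ring
    rw [e3] at e2
    rw [one_mul] at e1
    have c1 := ncases hN z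
    have c2 := ncases hN z'
    unfold PosBoxC at hb
    rcases abs_cases (A.q * T.x : ℤ) with ⟨a1, a2⟩ | ⟨a1, a2⟩ <;> rw [a1] at g1 g2 g3 <;> omega
  have hsg := A.hsg
  rcases hb with ⟨b1, b2, b3, b4⟩ | ⟨b1, b2, b3, b4, b5⟩
  · have b3' : S' + A.q ≤ 0 := by
      refine le_sub_q hq ?_ (by omega)
      rw [zero_sub]; exact dvd_neg.2 qS
    rcases lt_or_gt_of_ne h.x0 with hx | hx
    · have d := h.stm hx
      have hw : A.q * (A.w : ℤ) + -(A.q * T.x) ≤ A.q * A.h := by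
        rw [abs_of_neg (mul_neg_of_pos_of_neg hq hx)] at g1; exact g1
      rcases hsg with hg | hg
      · exact E1mpUL_c d hg he o f hD hw hV hS ck hkt in' b1 b2 b3' b4
      · exact E1mmUL_c d hg he o f hD hw hV hS ck hkt in' b1 b2 b3' b4
    · have d := h.stp hx
      have hw : A.q * (A.w : ℤ) + A.q * T.x ≤ A.q * A.h := by
        rw [abs_of_pos (mul_pos hq hx)] at g1; exact g1
      rcases hsg with hg | hg
      · exact E1ppUL_c d hg he o f hD hw hV hS ck hkt in' b1 b2 b3' b4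
      · exact E1pmUL_c d hg he o f hD hw hV hS ck hkt in' b1 b2 b3' b4
  · have b1' : U ≤ U' := by omega
    rcases lt_or_gt_of_ne h.x0 with hx | hx
    · have d := h.stm hx
      have hw : A.q * (A.w : ℤ) + -(A.q * T.x) ≤ A.q * A.h := by
        rw [abs_of_neg (mul_neg_of_pos_of_neg hq hx)] at g1; exact g1
      rcases hsg with hg | hg
      · exact E1mpLR_c d hg he o f hD hw hV hS ck hkt in' b1' b2 (by omega) (by omega) (by omega)
      · exact E1mmLR_c d hg he o f hD hw hV hS ck hkt in' b1' b2 (by omega) (by omega) (by omega)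
    · have d := h.stp hx
      have hw : A.q * (A.w : ℤ) + A.q * T.x ≤ A.q * A.h := by
        rw [abs_of_pos (mul_pos hq hx)] at g1; exact g1
      rcases hsg with hg | hg
      · exact E1ppLR_c d hg he o f hD hw hV hS ck hkt in' b1' b2 (by omega) (by omega) (by omega)
      · exact E1pmLR_c d hg he o f hD hw hV hS ck hkt in' b1' b2 (by omega) (by omega) (by omega)

theorem edgeE2 (h : TL T) (o : OV T n U S) (f : FT T n U) (he : T.ep = 1) (hV : U + S < 0)
    (hS : S ≤ A.q * A.w - A.q * A.h) : False := by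
  have hq := A.q_pos'
  have hN := NN_pos A
  have hk := A.k0_cases
  have hU := f.u
  rw [he, one_mul] at hU
  have hD := W_le_D h
  obtain ⟨g1, g2, g3⟩ := h.fx
  obtain ⟨o1, o2, o3, o4, o5, o6⟩ := o.b h
  have q6 := q6 A
  have W2 := W2 A
  have NW := NW A
  have NH := NH A
  have In := Idx.ofC o.cn
  have hsg := A.hsg
  have qn := q_dvd_S In
  obtain ⟨s, hs⟩ := id qn
  rcases lt_or_gt_of_ne h.x0 with hx | hx
  · -- `x < 0`
    have hX := mul_neg_of_pos_of_neg hq hx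
    rw [abs_of_neg hX] at g1 g2 g3
    have hY : (A.q : ℤ) * (s - A.w) = S - A.q * A.w := by rw [hs]; ring
    obtain ⟨i, U', S', i0, in', hI, hb⟩ := net_negC h.F (c := 0) (v := U + S)
      (Y := s - A.w) (dvd_zero _) (j := 0) (j' := n)
      (by rw [hY]; omega) (by rw [hY]; omega)
      ⟨le_refl _, A.p_pos'⟩ ⟨o.cn.2.1.le, o.cn.2.2⟩ o.cn.2.1.ne
      (Or.inl ⟨Or.inr (cn_of (Idx.zero A) (by rw [mul_zero]; omega)
          (by rw [hY, mul_zero]; omega) (by omega)),
        not_cn (Idx.zero A) (Or.inr (Or.inr ⟨by rw [mul_zero]; omega,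
          by rw [hY, mul_zero]; omega⟩)),
        not_cn (Idx.zero A) (Or.inr (Or.inl ⟨by rw [hY]; omega, by omega⟩))⟩)
      (Or.inl ⟨Or.inl (cn_of In (by omega) (by rw [hY, mul_zero]; omega)
          (by rw [mul_zero]; omega)),
        not_cn In (Or.inl ⟨by rw [mul_zero]; omega, by rw [hY, mul_zero]; omega⟩),
        not_cn In (Or.inr (Or.inl ⟨by rw [hY]; omega, by omega⟩))⟩)
    have ck := cls3 i0 hI
    have qS := q_dvd_S hI
    rw [hY] at hb
    have hkt : i ≠ T.t := by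
      refine ne_tie hI ?_
      intro z z' e1 e2
      rw [he] at e1 e2
      have e3 : (A.q : ℤ) * (1 * (T.x - A.w)) = A.q * T.x - A.q * A.w := by ring
      rw [e3] at e2
      rw [one_mul] at e1
      have c1 := ncases hN z
      have c2 := ncases hN z'
      unfold PosBoxC at hb
      omega
    have d := h.stm hx
    rcases hb with ⟨b1, b2, b3, b4⟩ | ⟨b1, b2, b3, b4, b5⟩
    · have b3' : S' + A.q ≤ S := le_sub_q hq (dvd_sub qn qS) (by omega)
      rcases hsg with hg | hg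
      · exact E2mpUL_c d hg he o f hD g1 hV hS ck hkt in' b1 b2 b3' b4
      · exact E2mmUL_c d hg he o f hD g1 hV hS ck hkt in' b1 b2 b3' b4
    · rcases hsg with hg | hg
      · exact E2mpLR_c d hg he o f hD g1 hV hS ck hkt in' b1 b2 (by omega) (by omega) b5
      · exact E2mmLR_c d hg he o f hD g1 hV hS ck hkt in' b1 b2 (by omega) (by omega) b5
  · -- `0 < x`
    have hX := mul_pos hq hx
    rw [abs_of_pos hX] at g1 g2 g3
    have hY : (A.q : ℤ) * (s - A.w - A.h) = S - A.q * A.w - A.q * A.h := by rw [hs]; ring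
    obtain ⟨i, U', S', i0, in', hI, hb⟩ := net_posC h.F (c := U + A.q * A.w + A.sg)
      (v := -(A.q * A.h)) (Y := s - A.w - A.h) (dvd_c o) (j := 0) (j' := n)
      (by rw [hY]; omega) (by rw [hY]; omega)
      ⟨le_refl _, A.p_pos'⟩ ⟨o.cn.2.1.le, o.cn.2.2⟩ o.cn.2.1.ne
      (Or.inl ⟨Or.inr (cn_of (Idx.zero A) (by omega) (by rw [hY]; omega) (by omega)),
        not_cn (Idx.zero A) (Or.inr (Or.inr ⟨by rw [mul_zero]; omega,
          by rw [hY, mul_zero]; omega⟩)),
        not_cn (Idx.zero A) (Or.inl ⟨by rw [mul_zero]; omega, by rw [hY, mul_zero]; omega⟩)⟩)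
      (Or.inl ⟨Or.inr (cn_of In (by omega) (by rw [hY]) (by omega)),
        not_cn In (Or.inr (Or.inr ⟨by rw [mul_zero]; omega, by rw [hY, mul_zero]; omega⟩)),
        not_cn In (Or.inl ⟨by rw [mul_zero]; omega, by rw [hY, mul_zero]; omega⟩)⟩)
    have ck := cls3 i0 hI
    have qS := q_dvd_S hI
    rw [hY] at hb
    have hkt : i ≠ T.t := by
      refine ne_tie hI ?_
      intro z z' e1 e2
      rw [he] at e1 e2
      have e3 : (A.q : ℤ) * (1 * (T.x - A.w)) = A.q * T.x - A.q * A.w := by ring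
      rw [e3] at e2
      rw [one_mul] at e1
      have c1 := ncases hN z
      have c2 := ncases hN z'
      unfold NegBoxC at hb
      omega
    have d := h.stp hx
    rcases hb with ⟨b1, b2, b3, b4, b5⟩ | ⟨b1, b3, b4, b5⟩
    · have b4' : S' + A.q ≤ S := le_sub_q hq (dvd_sub qn qS) (by omega)
      rcases hsg with hg | hg
      · exact E2ppUR_c d hg he o f hD g1 hV hS ck hkt in' (by omega) b2 (by omega) b4' b5
      · exact E2pmUR_c d hg he o f hD g1 hV hS ck hkt in' (by omega) b2 (by omega) b4' b5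
    · have b4' : S' + A.q ≤ S := le_sub_q hq (dvd_sub qn qS) (by omega)
      rcases hsg with hg | hg
      · exact E2ppLL_c d hg he o f hD g1 hV hS ck hkt in' b1 (by omega) b4' (by omega)
      · exact E2pmLL_c d hg he o f hD g1 hV hS ck hkt in' b1 (by omega) b4' (by omega)

end Pool.Agent.H78.HL
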