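import Mathlib

/-!
# Three close points of an arithmetic progression on a circle

`p` points `a i` (`0 ≤ i < p`) on the circle of length `N = p q`: three of them lie in an arc of
length `< 2 q`.
-/

namespace Pool.Agent.H78.HL

open Finset

theorem three_close {p q a : ℤ} (hp : 2 < p) (hq : 0 < q)
    (gen : ∀ i, i ≠ 0 → |i| ≤ p → ¬ q ∣ a * i) :
    ∃ i j k u v w : ℤ, (0 ≤ i ∧ i < p) ∧ (0 ≤ j ∧ j < p) ∧ (0 ≤ k ∧ k < p) ∧
      p * q ∣ a * i - u ∧ p * q ∣ a * j - v ∧ p * q ∣ a * k - w ∧
      u < v ∧ v < w ∧ w < u + 2 * q := by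
  set N := p * q with hNdef
  have hN2 : 2 * q < N := by rw [hNdef]; nlinarith
  have hN : 0 < N := by linarith
  let F : ℤ → Finset ℤ := fun x => (Ico (0 : ℤ) p).filter (fun i => (x - a * i) % N < 2 * q)
  have hF : ∀ x i, i ∈ F x ↔ (0 ≤ i ∧ i < p) ∧ (x - a * i) % N < 2 * q := by
    intro x i
    simp only [F, mem_filter, mem_Ico]
  -- the sum of the counts
  have hsum : 2 * N ≤ ∑ x ∈ Ico (0 : ℤ) N, ((F x).card : ℤ) := by
    have h1 : ∀ x, ((F x).card : ℤ) =
        ∑ i ∈ Ico (0 : ℤ) p, (if (x - a * i) % N < 2 * q then (1 : ℤ) else 0) := by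
      intro x
      rw [← Finset.sum_boole]
    have h2 : ∑ x ∈ Ico (0 : ℤ) N, ((F x).card : ℤ) =
        ∑ i ∈ Ico (0 : ℤ) p, ∑ x ∈ Ico (0 : ℤ) N,
          (if (x - a * i) % N < 2 * q then (1 : ℤ) else 0) := by
      rw [Finset.sum_comm]
      exact Finset.sum_congr rfl fun x _ => h1 x
    rw [h2]
    have h3 : ∀ i ∈ Ico (0 : ℤ) p, 2 * q ≤ ∑ x ∈ Ico (0 : ℤ) N,
        (if (x - a * i) % N < 2 * q then (1 : ℤ) else 0) := by
      intro i _
      rw [Finset.sum_boole]
      have hc : (Ico (0 : ℤ) (2 * q)).card ≤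
          ((Ico (0 : ℤ) N).filter (fun x => (x - a * i) % N < 2 * q)).card := by
        apply Finset.card_le_card_of_injOn (fun y => (y + a * i) % N)
        · intro y hy
          simp only [coe_Ico, Set.mem_Ico] at hy
          simp only [coe_filter, mem_Ico, Set.mem_ofPred_eq]
          refine ⟨⟨Int.emod_nonneg _ hN.ne', Int.emod_lt_of_pos _ hN⟩, ?_⟩
          rw [Int.emod_sub_emod, add_sub_cancel_right, Int.emod_eq_of_lt hy.1 (by linarith [hy.2])]
          exact hy.2
        · intro y hy y' hy' he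
          simp only [coe_Ico, Set.mem_Ico] at hy hy'
          have he' : (y + a * i) % N = (y' + a * i) % N := he
          have h5 : (y + a * i - a * i) % N = (y' + a * i - a * i) % N := by
            rw [← Int.emod_sub_emod, he', Int.emod_sub_emod]
          rw [add_sub_cancel_right, add_sub_cancel_right,
            Int.emod_eq_of_lt hy.1 (by linarith [hy.2]),
            Int.emod_eq_of_lt hy'.1 (by linarith [hy'.2])] at h5
          exact h5
      rw [Int.card_Ico] at hc
      have h6 : ((2 * q - 0).toNat : ℤ) = 2 * q := by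
        rw [sub_zero]; exact Int.toNat_of_nonneg (by linarith)
      have h7 : ((2 * q - 0).toNat : ℤ) ≤
          (((Ico (0 : ℤ) N).filter (fun x => (x - a * i) % N < 2 * q)).card : ℤ) := by
        exact_mod_cast hc
      rw [h6] at h7
      exact h7
    calc 2 * N = ∑ i ∈ Ico (0 : ℤ) p, 2 * q := by
          rw [Finset.sum_const, Int.card_Ico, nsmul_eq_mul, sub_zero,
            show ((p.toNat : ℕ) : ℤ) = p from Int.toNat_of_nonneg (by linarith), hNdef]
          ring
      _ ≤ _ := Finset.sum_le_sum h3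
  -- a count which is small
  have hz : (F (2 * q)).card + 1 ≤ (F (2 * q - 1)).card := by
    have h0 : (0 : ℤ) ∈ F (2 * q - 1) := by
      rw [hF]
      refine ⟨⟨le_refl _, by linarith⟩, ?_⟩
      rw [mul_zero, sub_zero, Int.emod_eq_of_lt (by linarith) (by linarith)]
      linarith
    have hsub : F (2 * q) ⊆ (F (2 * q - 1)).erase 0 := by
      intro i hi
      rw [hF] at hi
      obtain ⟨hi1, hi2⟩ := hi
      have hi0 : i ≠ 0 := by
        rintro rfl
        rw [mul_zero, sub_zero, Int.emod_eq_of_lt (by linarith) (by linarith)] at hi2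
        linarith
      rw [mem_erase, hF]
      refine ⟨hi0, hi1, ?_⟩
      have e1 := Int.emod_add_mul_ediv (2 * q - a * i) N
      have r0 := Int.emod_nonneg (2 * q - a * i) hN.ne'
      have r1 := Int.emod_lt_of_pos (2 * q - a * i) hN
      set r := (2 * q - a * i) % N
      set z := (2 * q - a * i) / N
      have hr : r ≠ 0 := by
        intro h
        apply gen i hi0 (by rw [abs_of_nonneg hi1.1]; linarith [hi1.2])
        refine ⟨2 - p * z, ?_⟩
        rw [h] at e1
        linear_combination e1 + z * hNdef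
      have e2 : 2 * q - 1 - a * i = (r - 1) + N * z := by linear_combination -e1
      rw [e2, Int.add_mul_emod_self_left, Int.emod_eq_of_lt (by omega) (by omega)]
      omega
    have h3 := Finset.card_le_card hsub
    rw [Finset.card_erase_of_mem h0] at h3
    have h4 : 0 < (F (2 * q - 1)).card := Finset.card_pos.2 ⟨0, h0⟩
    omega
  -- an arc with three points
  obtain ⟨x, hx⟩ : ∃ x, 2 < (F x).card := by
    by_contra hno
    push Not at hno
    have hlt : ∑ x ∈ Ico (0 : ℤ) N, ((F x).card : ℤ) < ∑ x ∈ Ico (0 : ℤ) N, (2 : ℤ) := by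
      apply Finset.sum_lt_sum
      · intro x _
        exact_mod_cast hno x
      · refine ⟨2 * q, ?_, ?_⟩
        · rw [mem_Ico]; exact ⟨by linarith, hN2⟩
        · have := hno (2 * q - 1)
          have h8 : (F (2 * q)).card < 2 := by omega
          exact_mod_cast h8
    rw [Finset.sum_const, Int.card_Ico, nsmul_eq_mul, sub_zero,
      show ((N.toNat : ℕ) : ℤ) = N from Int.toNat_of_nonneg hN.le] at hlt
    linarith
  obtain ⟨i, hi, j, hj, k, hk, hij, hik, hjk⟩ := Finset.two_lt_card.1 hx
  rw [hF] at hi hj hk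
  -- lifts
  have lift : ∀ i, (0 ≤ i ∧ i < p) ∧ (x - a * i) % N < 2 * q →
      ∃ u, N ∣ a * i - u ∧ x - 2 * q < u ∧ u ≤ x := by
    intro i hi
    have e1 := Int.emod_add_mul_ediv (x - a * i) N
    have r0 := Int.emod_nonneg (x - a * i) hN.ne'
    refine ⟨x - (x - a * i) % N, ⟨-((x - a * i) / N), by linear_combination e1⟩, ?_, ?_⟩
    · linarith [hi.2]
    · linarith
  obtain ⟨u, hu, u1, u2⟩ := lift i hi
  obtain ⟨v, hv, v1, v2⟩ := lift j hj
  obtain ⟨w, hw, w1, w2⟩ := lift k hk
  have inj : ∀ {i j u : ℤ}, (0 ≤ i ∧ i < p) → (0 ≤ j ∧ j < p) → i ≠ j → N ∣ a * i - u →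
      ¬ N ∣ a * j - u := by
    intro i j u hi hj hij h1 h2
    apply gen (i - j) (sub_ne_zero.2 hij)
    · rw [abs_le]; constructor <;> linarith [hi.1, hi.2, hj.1, hj.2]
    · have h3 := dvd_sub h1 h2
      rw [show a * i - u - (a * j - u) = a * (i - j) by ring] at h3
      exact (Dvd.intro_left p hNdef.symm).trans h3
  have huv : u ≠ v := by rintro rfl; exact inj hi.1 hj.1 hij hu hv
  have huw : u ≠ w := by rintro rfl; exact inj hi.1 hk.1 hik hu hw
  have hvw : v ≠ w := by rintro rfl; exact inj hj.1 hk.1 hjk hv hw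
  rcases lt_or_gt_of_ne huv with h1 | h1 <;> rcases lt_or_gt_of_ne huw with h2 | h2 <;>
    rcases lt_or_gt_of_ne hvw with h3 | h3
  · exact ⟨i, j, k, u, v, w, hi.1, hj.1, hk.1, hu, hv, hw, h1, h3, by linarith⟩
  · exact ⟨i, k, j, u, w, v, hi.1, hk.1, hj.1, hu, hw, hv, h2, h3, by linarith⟩
  · exfalso; linarith
  · exact ⟨k, i, j, w, u, v, hk.1, hi.1, hj.1, hw, hu, hv, h2, h1, by linarith⟩
  · exact ⟨j, i, k, v, u, w, hj.1, hi.1, hk.1, hv, hu, hw, h1, h2, by linarith⟩
  · exfalso; linarith
  · exact ⟨j, k, i, v, w, u, hj.1, hk.1, hi.1, hv, hw, hu, h3, h2, by linarith⟩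
  · exact ⟨k, j, i, w, v, u, hk.1, hj.1, hi.1, hw, hv, hu, h3, h1, by linarith⟩

/-- **the chain to the tie**: if the columns `(-W, u_n + W]` contain no class except `n`, then
`t = m g`, where `g` is the class closest to `0` from the right, and `m ≥ 3` -/
theorem chain {p q a W R sg t n un : ℤ} (hp : 3 < p) (hpq : p < q)
    (gen : ∀ i, i ≠ 0 → |i| ≤ p → ¬ q ∣ a * i) (hpa : p ∣ a)
    (hW : 2 * q ≤ W) (hWN : 2 * W + q ≤ p * q) (hsg : sg = 1 ∨ sg = -1) (hR : R = W + sg)
    (ht : 0 < t ∧ t < p) (hn : 0 < n ∧ n < p) (hut : p * q ∣ a * t - R)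
    (hun : p * q ∣ a * n - un) (hun1 : -W < un) (hun2 : un < 0) (hnt : p ≤ n + t)
    (win : ∀ i u, 0 < i → i < p → i ≠ n → i ≠ t → p * q ∣ a * i - u → -W < u → u ≤ un + W →
      False) :
    ∃ g m d : ℤ, 0 < g ∧ g < p ∧ 3 ≤ m ∧ t = m * g ∧ R = m * d ∧ p * q ∣ a * g - d ∧
      un + W < d ∧ 3 < d ∧ d < q ∧ p ≤ n + g ∧
      (∀ i u, 0 < i → i < p → p * q ∣ a * i - u → 0 < u → d ≤ u) := by
  set N := p * q with hNdef
  have hq0 : 0 < q := by linarith
  have hN : 0 < N := by rw [hNdef]; nlinarith
  have dv : ∀ {i u v : ℤ}, N ∣ a * i - u → N ∣ a * i - v → -N < u - v → u - v < N → u = v := by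
    intro i u v h1 h2 h3 h4
    have h5 := dvd_sub h2 h1
    rw [show a * i - v - (a * i - u) = u - v by ring] at h5
    have := Int.eq_zero_of_abs_lt_dvd h5 (by rw [abs_lt]; constructor <;> linarith)
    linarith
  have inj : ∀ {i j u : ℤ}, (0 < i ∧ i < p) → (0 < j ∧ j < p) → N ∣ a * i - u →
      N ∣ a * j - u → i = j := by
    intro i j u hi hj h1 h2
    by_contra hij
    apply gen (i - j) (sub_ne_zero.2 hij)
    · rw [abs_le]; constructor <;> linarith [hi.1, hi.2, hj.1, hj.2]
    · have h3 := dvd_sub h1 h2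
      rw [show a * i - u - (a * j - u) = a * (i - j) by ring] at h3
      exact (Dvd.intro_left p hNdef.symm).trans h3
  have hpu : ∀ {i u : ℤ}, N ∣ a * i - u → p ∣ u := by
    intro i u h
    have h1 : p ∣ a * i - u := (Dvd.intro q hNdef.symm).trans h
    have h2 := dvd_sub (hpa.mul_right i) h1
    rwa [show a * i - (a * i - u) = u by ring] at h2
  have hne0 : ∀ {i : ℤ}, (0 < i ∧ i < p) → ¬ N ∣ a * i - 0 := by
    intro i hi h
    apply gen i hi.1.ne' (by rw [abs_of_pos hi.1]; exact hi.2.le)
    rw [sub_zero] at h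
    exact (Dvd.intro_left p hNdef.symm).trans h
  -- windows
  have winN : ∀ {i u : ℤ}, (0 < i ∧ i < p) → N ∣ a * i - u → -W < u → u < 0 → i = n := by
    intro i u hi h h1 h2
    by_contra hin
    by_cases hit : i = t
    · subst hit
      have := dv hut h (by rcases hsg with h | h <;> linarith)
        (by rcases hsg with h | h <;> linarith)
      rcases hsg with h | h <;> linarith
    · exact win i u hi.1 hi.2 hin hit h h1 (by linarith)
  have winP : ∀ {i u : ℤ}, (0 < i ∧ i < p) → N ∣ a * i - u → 0 < u → u < 2 * W → un + W < u := by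
    intro i u hi h h1 h2
    by_contra hc
    push Not at hc
    by_cases hin : i = n
    · subst hin
      have := dv h hun (by linarith) (by linarith)
      linarith
    by_cases hit : i = t
    · subst hit
      have := dv hut h (by rcases hsg with h | h <;> linarith)
        (by rcases hsg with h | h <;> linarith)
      have h5 := hpu hun
      have h6 : un ≤ -p := by
        obtain ⟨z, rfl⟩ := h5
        have : z ≤ -1 := by
          by_contra hz
          push Not at hz
          have : 0 ≤ z := by omega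
          nlinarith
        nlinarith
      rcases hsg with h | h <;> linarith
    · exact win i u hi.1 hi.2 hin hit h (by linarith) hc
  -- a class with `0 < u < q`
  obtain ⟨i, j, k, u, v, w, hi, hj, hk, hu, hv, hw, huv, hvw, hwu⟩ :=
    three_close (by linarith) hq0 gen
  have hd : ∀ {i j u v : ℤ}, N ∣ a * i - u → N ∣ a * j - v → N ∣ a * (j - i) - (v - u) := by
    intro i j u v h1 h2
    have := dvd_sub h2 h1
    rwa [show a * j - v - (a * i - u) = a * (j - i) - (v - u) by ring] at this
  have step : ∀ {i j e : ℤ}, (0 ≤ i ∧ i < p) → (0 ≤ j ∧ j < p) → N ∣ a * (j - i) - e → 0 < e →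
      e < 2 * q → (i < j ∧ un + W < e) ∨ (i - j = n ∧ e = -un) := by
    intro i j e hi hj h h1 h2
    rcases lt_trichotomy i j with hij | hij | hij
    · left
      exact ⟨hij, winP ⟨by linarith, by linarith [hi.1, hj.2]⟩ h h1 (by linarith)⟩
    · exfalso
      subst hij
      rw [sub_self, mul_zero, zero_sub, dvd_neg] at h
      have := Int.le_of_dvd h1 h
      linarith
    · right
      have h3 : N ∣ a * (i - j) - (-e) := by
        rw [show a * (i - j) - (-e) = -(a * (j - i) - e) by ring]
        exact (dvd_neg).2 h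
      have h4 := winN ⟨by linarith, by linarith [hi.2, hj.1]⟩ h3 (by linarith) (by linarith)
      refine ⟨h4, ?_⟩
      rw [h4] at h3
      have := dv h3 hun (by linarith) (by linarith)
      linarith
  have ex : ∃ g e, (0 < g ∧ g < p) ∧ N ∣ a * g - e ∧ 0 < e ∧ e < q := by
    have d1 := step hi hj (hd hu hv) (by linarith) (by linarith)
    have d2 := step hj hk (hd hv hw) (by linarith) (by linarith)
    have d3 := step hi hk (hd hu hw) (by linarith) (by linarith)
    rcases d1 with ⟨a1, b1⟩ | ⟨a1, b1⟩ <;> rcases d2 with ⟨a2, b2⟩ | ⟨a2, b2⟩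
    · by_cases hs : v - u < q
      · exact ⟨j - i, v - u, ⟨by linarith, by linarith [hi.1, hj.2]⟩, hd hu hv, by linarith, hs⟩
      · exact ⟨k - j, w - v, ⟨by linarith, by linarith [hj.1, hk.2]⟩, hd hv hw, by linarith,
          by linarith⟩
    · exfalso; linarith
    · exfalso; linarith
    · exfalso
      rcases d3 with ⟨a3, b3⟩ | ⟨a3, b3⟩
      · linarith [hn.1]
      · linarith [hn.1]
  -- the minimal one
  obtain ⟨g, d, hg, hgd, hd0, hdq, hmin⟩ : ∃ g d, (0 < g ∧ g < p) ∧ N ∣ a * g - d ∧ 0 < d ∧
      d < q ∧ ∀ i u, (0 < i ∧ i < p) → N ∣ a * i - u → 0 < u → d ≤ u := by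
    obtain ⟨g0, e0, h1, h2, h3, h4⟩ := ex
    have hb : ∃ b : ℕ, ∃ g : ℤ, (0 < g ∧ g < p) ∧ N ∣ a * g - b ∧ 0 < b :=
      ⟨e0.toNat, g0, h1, by rwa [Int.toNat_of_nonneg h3.le], by omega⟩
    classical
    obtain ⟨g, c1, c2, c3⟩ := Nat.find_spec hb
    set b := Nat.find hb with hbdef
    have hm : ∀ i u, (0 < i ∧ i < p) → N ∣ a * i - u → 0 < u → (b : ℤ) ≤ u := by
      intro i u a1 a2 a3
      have : b ≤ u.toNat := by
        apply Nat.find_min' hb
        exact ⟨i, a1, by rwa [Int.toNat_of_nonneg a3.le], by omega⟩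
      omega
    refine ⟨g, b, c1, c2, by exact_mod_cast c3, ?_, hm⟩
    have := hm g0 e0 h1 h2 h3
    linarith
  have hd3 : 3 < d := by
    have := Int.le_of_dvd hd0 (hpu hgd)
    linarith
  have hcd : un + W < d := winP hg hgd hd0 (by linarith)
  -- `p ≤ n + g`
  have hng : p ≤ n + g := by
    by_contra hc
    push Not at hc
    have h1 : N ∣ a * (n + g) - (un + d) := by
      have := dvd_add hun hgd
      rwa [show a * n - un + (a * g - d) = a * (n + g) - (un + d) by ring] at this
    have h2 : un + d < 0 := by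
      have h5 : p ∣ (un + R) := by
        have := hpu hut
        exact dvd_add (hpu hun) this
      -- `un + W < d < q ≤ W / 2`
      linarith
    have := winN ⟨by linarith [hn.1, hg.1], hc⟩ h1 (by linarith) h2
    linarith [hg.1]
  -- the path
  have path : ∀ k : ℕ, (∃ m : ℤ, 1 ≤ m ∧ t = m * g ∧ R = m * d) ∨
      (0 < t - k * g ∧ 0 < R - k * d) := by
    intro k
    induction k with
    | zero =>
      right
      refine ⟨by simpa using ht.1, ?_⟩
      have : 0 < R := by rcases hsg with h | h <;> linarith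
      simpa using this
    | succ k ih =>
      rcases ih with h | ⟨h1, h2⟩
      · exact Or.inl h
      have hk0 : (0 : ℤ) ≤ k := Int.natCast_nonneg k
      have hkg : 0 ≤ (k : ℤ) * g := mul_nonneg hk0 hg.1.le
      have hkd : 0 ≤ (k : ℤ) * d := mul_nonneg hk0 hd0.le
      have hi : 0 < t - k * g ∧ t - k * g < p := ⟨h1, by linarith [ht.2]⟩
      have hc : N ∣ a * (t - k * g) - (R - k * d) := by
        have := dvd_sub hut (Dvd.dvd.mul_left hgd k)
        rwa [show a * t - R - k * (a * g - d) = a * (t - k * g) - (R - k * d) by ring] at this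
      have hle := hmin _ _ hi hc h2
      rcases lt_trichotomy (t - k * g) g with hlt | heq | hgt
      · exfalso
        have hc2 : N ∣ a * (g - (t - k * g)) - (d - (R - k * d)) := by
          have := dvd_sub hgd hc
          rwa [show a * g - d - (a * (t - k * g) - (R - k * d)) =
            a * (g - (t - k * g)) - (d - (R - k * d)) by ring] at this
        have hi2 : 0 < g - (t - k * g) ∧ g - (t - k * g) < p :=
          ⟨by linarith, by linarith [hg.2]⟩
        have hne : d - (R - k * d) ≠ 0 := by
          intro h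
          rw [h] at hc2
          exact hne0 hi2 hc2
        have hneg : d - (R - k * d) < 0 := by
          rcases lt_or_eq_of_le hle with h | h
          · linarith
          · exact absurd (by linarith) hne
        have hW2 : -W < d - (R - k * d) := by
          rcases hsg with h | h <;> linarith
        have hin := winN hi2 hc2 hW2 hneg
        rw [hin] at hc2
        have hu2 := dv hc2 hun (by linarith) (by linarith)
        -- `(k + 1) d = un + R ≤ d`
        have h7 : (k : ℤ) * d ≤ 0 := by
          rcases hsg with h | h <;> linarith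
        have h8 : (k : ℤ) = 0 := by
          by_contra hk
          have : 0 < (k : ℤ) := lt_of_le_of_ne hk0 (Ne.symm hk)
          have := mul_pos this hd0
          linarith
        rw [h8] at hin
        linarith [hg.2]
      · left
        refine ⟨k + 1, by linarith, by linarith, ?_⟩
        rw [heq] at hc
        have := dv hc hgd (by linarith) (by rcases hsg with h | h <;> linarith)
        linarith
      · right
        have hc2 : N ∣ a * (t - k * g - g) - (R - k * d - d) := by
          have := dvd_sub hc hgd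
          rwa [show a * (t - k * g) - (R - k * d) - (a * g - d) =
            a * (t - k * g - g) - (R - k * d - d) by ring] at this
        have hi2 : 0 < t - k * g - g ∧ t - k * g - g < p :=
          ⟨by linarith, by linarith [ht.2, hg.1]⟩
        have hne : R - k * d - d ≠ 0 := by
          intro h
          rw [h] at hc2
          exact hne0 hi2 hc2
        push_cast
        refine ⟨by linarith, ?_⟩
        rcases lt_or_eq_of_le hle with h | h
        · linarith
        · exact absurd (by linarith) hne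
  obtain ⟨m, hm1, hmt, hmR⟩ : ∃ m : ℤ, 1 ≤ m ∧ t = m * g ∧ R = m * d := by
    rcases path t.toNat with h | ⟨h, -⟩
    · exact h
    · exfalso
      rw [Int.toNat_of_nonneg ht.1.le] at h
      nlinarith [ht.1, hg.1]
  have hm3 : 3 ≤ m := by
    by_contra hc
    push Not at hc
    have h1 : m = 1 ∨ m = 2 := by omega
    rcases h1 with rfl | rfl
    · rcases hsg with h | h <;> linarith
    · rcases hsg with h | h
      · linarith
      · have : 2 * d ≤ 2 * (q - 1) := by linarith
        linarith
  exact ⟨g, m, d, hg.1, hg.2, hm3, hmt, hmR, hgd, hcd, hd3, hdq, hng,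
    fun i u h1 h2 h3 h4 => hmin i u ⟨h1, h2⟩ h3 h4⟩

end Pool.Agent.H78.HL
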