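import Pool.Agent.H78.HL.Edge7
import Pool.Agent.H98.HL.Win
import Pool.Agent.H42.WM.Win
import Pool.Agent.H81.HP.Fin

/-!
# Tall rectangles: the overlapping class, from its parts
-/

namespace Pool.Agent.H78.HL

open Pool.Agent.H98.Flat
open Pool.Agent.H78.Tie
open Pool.Agent.H78.Tie.TAp
open Pool.Agent.H78.RT
open Pool.Agent.H78.SV

variable {A : TAp} {T : A.Tie} {n U S : ℤ}

/-- `F` type for all overlapping classes gives that they lie on the other side -/
theorem opp_of (h : ∀ k U S, OV T k U S → FT T k U) : Opp T := fun k U S o => (h k U S o).u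

/-- the case without edges -/
theorem main_false (h : TL T) (o : OV T n U S) (f : FT T n U) (P : Opp T)
    (hD : A.D < A.q * A.h) (w : Win T n U) (mm : Pool.Agent.H81.HP.Main T U S) : False := by
  obtain ⟨g, m, d, Sg, c⟩ := caseR h o f w
  obtain ⟨-, h3, -⟩ := c.size h P
  have := abs_nonneg (A.q * T.x : ℤ)
  exact Pool.Agent.H81.HP.caseR_false ⟨h, o, f, hD, by linarith⟩ mm P c

theorem step_up {x y z : ℤ} (hS : S = A.q * z) (hx : x = A.q * y) (h : x < S) :
    x + A.q ≤ S := by
  have hq := A.q_pos'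
  have : (A.q : ℤ) * y < A.q * z := by rw [← hS, ← hx]; exact h
  have h1 := lt_of_mul_lt_mul_left this hq.le
  have := mul_le_mul_of_nonneg_left (show y + 1 ≤ z by omega) hq.le
  rw [hS, hx]; linarith [mul_add (A.q : ℤ) y 1]

theorem step_dn {x y z : ℤ} (hS : S = A.q * z) (hx : x = A.q * y) (h : S < x) :
    S + A.q ≤ x := step_up (A := A) (S := x) (x := S) hx hS h

/-- no overlapping class, from the parts -/
theorem no_of (h : TL T) (hF : ∀ k U S, OV T k U S → FT T k U ∧ (A.D < A.q * A.h ∨
      (T.ep = 1 ∧ U + S < 0 ∧ S ≤ A.q * A.w - A.q * A.h)))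
    (E4 : ∀ k U S, OV T k U S → FT T k U → T.ep = -1 → U + S < 0 →
      S ≤ A.q * A.w - A.q * A.h → A.D < A.q * A.h → False)
    (E5 : ∀ k U S, OV T k U S → FT T k U → T.ep = -1 → 0 < U + S → S ≤ 0 →
      A.D < A.q * A.h → False)
    (E6 : ∀ k U S, OV T k U S → FT T k U → T.ep = -1 → 0 < U + S →
      A.q * A.h - A.q * A.w ≤ S → A.D < A.q * A.h → False)
    (o : OV T n U S) : False := by
  have P : Opp T := opp_of fun k U S o => (hF k U S o).1
  obtain ⟨f, hc⟩ := hF n U S o
  obtain ⟨o1, o2, o3, o4, o5, o6⟩ := o.b h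
  obtain ⟨z, -⟩ := o.cn.1.2.1
  obtain ⟨z, hz⟩ : ∃ z, S = A.q * z := by
    obtain ⟨s, hs, -⟩ := o.cn.1.2.1
    exact ⟨s, hs⟩
  have hU := f.u
  have hq := A.q_pos'
  have eWH : (A.q * A.w - A.q * A.h : ℤ) = A.q * (A.w - A.h) := by ring
  have eHW : (A.q * A.h - A.q * A.w : ℤ) = A.q * (A.h - A.w) := by ring
  rcases T.hep with he | he
  · rw [he, one_mul] at hU
    rcases hc with hD | ⟨-, hV, hS⟩
    · rcases o6 with hV | hV
      · rcases le_or_gt S (A.q * A.w - A.q * A.h) with hS | hS
        · exact edgeE2 h o f he (by linarith) hS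
        rcases le_or_gt 0 S with hS0 | hS0
        · exact edgeE1 h o f he (by linarith) hS0
        refine main_false h o f P hD (Pool.Agent.H98.HL.win h o f
          (Or.inr (step_up hz eWH hS)) he) (Or.inr ⟨by linarith, hS0, ?_, fun _ => hS⟩)
        intro he'
        rw [he] at he'; norm_num at he'
      · refine main_false h o f P hD (Pool.Agent.H98.HL.win h o f (Or.inl (by linarith)) he)
          (Or.inl ⟨by linarith, ?_⟩)
        intro he'
        rw [he] at he'; norm_num at he'
    · exact edgeE2 h o f he hV hS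
  · rw [he, neg_one_mul] at hU
    have hD : A.D < A.q * A.h := by
      rcases hc with hD | ⟨he', -⟩
      · exact hD
      · rw [he] at he'; norm_num at he'
    have h1 : ∀ {P : Prop}, (T.ep = 1 → P) := by
      intro P he'
      rw [he] at he'; norm_num at he'
    rcases o6 with hV | hV
    · rcases le_or_gt S (A.q * A.w - A.q * A.h) with hS | hS
      · exact E4 n U S o f he (by linarith) hS hD
      refine main_false h o f P hD (Pool.Agent.H42.WM.win h o f
        ⟨fun _ => step_up hz eWH hS, fun h2 => absurd h2 (by linarith)⟩ he)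
        (Or.inr ⟨by linarith, by linarith, fun _ => hS.le, h1⟩)
    · rcases le_or_gt S 0 with hS | hS
      · exact E5 n U S o f he (by linarith) hS hD
      rcases le_or_gt (A.q * A.h - A.q * A.w : ℤ) S with hS1 | hS1
      · exact E6 n U S o f he (by linarith) hS1 hD
      have s0 := step_up (A := A) (x := 0) (y := 0) hz (by ring) hS
      have s1 := step_dn hz eHW hS1
      refine main_false h o f P hD (Pool.Agent.H42.WM.win h o f
        ⟨fun h2 => absurd h2 (by linarith), fun _ => ⟨by linarith, by linarith⟩⟩ he)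
        (Or.inl ⟨by linarith, fun _ => ⟨hS, hS1⟩⟩)

end Pool.Agent.H78.HL
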